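import Mathlib
import Pool.Agent.Work.MP_0c861e_co.Asymp

/-!
# Almost all labeled convex geometries are primitive
-/

set_option autoImplicit false

open Set Filter Topology Pool.Agent.Work.MP_0c861e_co

namespace Pool.Agent.Results.MP_0c861e_co.LabeledRatio

/-- **Q1.** `L_n^pr / L_n → 1` as `n → ∞`. -/
theorem result : Tendsto (fun n : ℕ => (Lpr n : ℝ) / (L n : ℝ)) atTop (𝓝 1) := by
  have h1 : Tendsto (fun n : ℕ => 1 - (NP n : ℝ) * (n.factorial : ℝ) / (L n : ℝ)) atTop (𝓝 1) := by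
    have := tendsto_ratio.const_sub 1
    simpa using this
  refine tendsto_of_tendsto_of_tendsto_of_le_of_le h1 tendsto_const_nhds ?_ ?_
  · intro n
    have hL : (0 : ℝ) < L n := by exact_mod_cast L_pos n
    have h2 : (L n : ℝ) = (Lpr n : ℝ) + (NP n : ℝ) := by exact_mod_cast L_eq n
    have h3 : (1 : ℝ) ≤ n.factorial := by exact_mod_cast Nat.factorial_pos n
    have h4 : (0 : ℝ) ≤ NP n := by positivity
    change 1 - (NP n : ℝ) * (n.factorial : ℝ) / (L n : ℝ) ≤ (Lpr n : ℝ) / (L n : ℝ)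
    rw [sub_le_iff_le_add, ← add_div, le_div_iff₀ hL]
    nlinarith
  · intro n
    have hL : (0 : ℝ) < L n := by exact_mod_cast L_pos n
    have h2 : (L n : ℝ) = (Lpr n : ℝ) + (NP n : ℝ) := by exact_mod_cast L_eq n
    have h4 : (0 : ℝ) ≤ NP n := by positivity
    change (Lpr n : ℝ) / (L n : ℝ) ≤ 1
    rw [div_le_one hL]
    linarith

end Pool.Agent.Results.MP_0c861e_co.LabeledRatio
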