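import Mathlib
import Pool.Agent.Work.MP_0c861e_co.Asymp

/-!
# Almost all unlabeled convex geometries are primitive
-/

set_option autoImplicit false

open Set Filter Topology Pool.Agent.Work.MP_0c861e_co

namespace Pool.Agent.Results.MP_0c861e_co.UnlabeledRatio

lemma iso_refl {X : Type} (𝒢 : Set (Set X)) : Iso 𝒢 𝒢 :=
  ⟨Equiv.refl X, fun A => by simp⟩

lemma iso_symm {X Y : Type} {𝒢 : Set (Set X)} {ℋ : Set (Set Y)} (h : Iso 𝒢 ℋ) : Iso ℋ 𝒢 := by
  obtain ⟨e, he⟩ := h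
  refine ⟨e.symm, fun A => ?_⟩
  rw [he, ← Set.image_comp, e.self_comp_symm, Set.image_id]

lemma iso_trans {X Y Z : Type} {𝒢 : Set (Set X)} {ℋ : Set (Set Y)} {𝒦 : Set (Set Z)}
    (h1 : Iso 𝒢 ℋ) (h2 : Iso ℋ 𝒦) : Iso 𝒢 𝒦 := by
  obtain ⟨e, he⟩ := h1
  obtain ⟨f, hf⟩ := h2
  refine ⟨e.trans f, fun A => ?_⟩
  rw [he, hf, ← Set.image_comp]
  rfl

/-- Isomorphism, as an equivalence relation on the families on `Fin n` with the property `p`. -/
def isoSetoid (n : ℕ) (p : Set (Set (Fin n)) → Prop) :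
    Setoid {𝒢 : Set (Set (Fin n)) // p 𝒢} where
  r 𝒢 ℋ := Iso 𝒢.1 ℋ.1
  iseqv := ⟨fun 𝒢 => iso_refl 𝒢.1, fun h => iso_symm h, fun h1 h2 => iso_trans h1 h2⟩

/-- `U_n`: the number of isomorphism classes of convex geometries on `n` elements. -/
noncomputable def U (n : ℕ) : ℕ :=
  Nat.card (Quotient (isoSetoid n (fun 𝒢 => IsConvexGeometry 𝒢)))

/-- `U_n^pr`: the number of isomorphism classes of primitive convex geometries on `n` elements. -/
noncomputable def Upr (n : ℕ) : ℕ :=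
  Nat.card (Quotient (isoSetoid n (fun 𝒢 => IsConvexGeometry 𝒢 ∧ IsPrimitive 𝒢)))

lemma L_le_mul (n : ℕ) : L n ≤ n.factorial * U n := by
  classical
  have h1 : Nat.card (Equiv.Perm (Fin n)) = n.factorial := by
    rw [Nat.card_eq_fintype_card, Fintype.card_perm, Fintype.card_fin]
  unfold L U
  rw [← h1, ← Nat.card_prod]
  apply Nat.card_le_card_of_surjective (fun p : Equiv.Perm (Fin n) ×
    Quotient (isoSetoid n (fun 𝒢 => IsConvexGeometry 𝒢)) =>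
      (⟨tr p.1 p.2.out.1, p.2.out.2.tr p.1⟩ : {𝒢 : Set (Set (Fin n)) // IsConvexGeometry 𝒢}))
  intro 𝒢
  have h2 : Iso (Quotient.mk (isoSetoid n (fun 𝒢 => IsConvexGeometry 𝒢)) 𝒢).out.1 𝒢.1 :=
    Quotient.exact (s := isoSetoid n (fun 𝒢 => IsConvexGeometry 𝒢))
      (Quotient.out_eq (Quotient.mk (isoSetoid n (fun 𝒢 => IsConvexGeometry 𝒢)) 𝒢))
  obtain ⟨e, he⟩ := h2
  refine ⟨(e, Quotient.mk _ 𝒢), ?_⟩
  apply Subtype.ext
  ext A
  have h3 := he (e ⁻¹' A)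
  rw [Set.image_preimage_eq _ e.surjective] at h3
  exact h3

lemma U_le_add (n : ℕ) : U n ≤ Upr n + NP n := by
  classical
  unfold U Upr NP
  rw [← Nat.card_sum]
  let F : Quotient (isoSetoid n (fun 𝒢 => IsConvexGeometry 𝒢 ∧ IsPrimitive 𝒢)) →
      Quotient (isoSetoid n (fun 𝒢 => IsConvexGeometry 𝒢)) :=
    Quotient.lift (fun 𝒢 => Quotient.mk _ ⟨𝒢.1, 𝒢.2.1⟩) (fun a b hab => by
      apply Quotient.sound
      exact hab)
  apply Nat.card_le_card_of_surjective (fun s :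
    Quotient (isoSetoid n (fun 𝒢 => IsConvexGeometry 𝒢 ∧ IsPrimitive 𝒢)) ⊕
      {𝒢 : Set (Set (Fin n)) // IsConvexGeometry 𝒢 ∧ ¬ IsPrimitive 𝒢} =>
      Sum.elim F (fun 𝒢 => Quotient.mk _ ⟨𝒢.1, 𝒢.2.1⟩) s)
  intro q
  induction q using Quotient.inductionOn with
  | h 𝒢 =>
    by_cases h : IsPrimitive 𝒢.1
    · exact ⟨Sum.inl (Quotient.mk _ ⟨𝒢.1, 𝒢.2, h⟩), rfl⟩
    · exact ⟨Sum.inr ⟨𝒢.1, 𝒢.2, h⟩, rfl⟩

lemma Upr_le (n : ℕ) : Upr n ≤ U n := by
  classical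
  unfold U Upr
  let F : Quotient (isoSetoid n (fun 𝒢 => IsConvexGeometry 𝒢 ∧ IsPrimitive 𝒢)) →
      Quotient (isoSetoid n (fun 𝒢 => IsConvexGeometry 𝒢)) :=
    Quotient.lift (fun 𝒢 => Quotient.mk _ ⟨𝒢.1, 𝒢.2.1⟩) (fun a b hab => by
      apply Quotient.sound
      exact hab)
  apply Nat.card_le_card_of_injective F
  intro a b hab
  induction a using Quotient.inductionOn with
  | h a =>
    induction b using Quotient.inductionOn with
    | h b =>
      apply Quotient.sound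
      have h1 : Iso a.1 b.1 := Quotient.exact (s := isoSetoid n (fun 𝒢 => IsConvexGeometry 𝒢)) hab
      exact h1

/-- **Q2.** `U_n^pr / U_n → 1` as `n → ∞`. -/
theorem result : Tendsto (fun n : ℕ => (Upr n : ℝ) / (U n : ℝ)) atTop (𝓝 1) := by
  have h1 : Tendsto (fun n : ℕ => 1 - (NP n : ℝ) * (n.factorial : ℝ) / (L n : ℝ)) atTop (𝓝 1) := by
    have := tendsto_ratio.const_sub 1
    simpa using this
  have hU : ∀ n, (0 : ℝ) < U n := by
    intro n
    have h2 := L_le_mul n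
    have h3 := L_pos n
    have h4 : 0 < U n := by
      rcases Nat.eq_zero_or_pos (U n) with h | h
      · rw [h, mul_zero] at h2; omega
      · exact h
    exact_mod_cast h4
  refine tendsto_of_tendsto_of_tendsto_of_le_of_le h1 tendsto_const_nhds ?_ ?_
  · intro n
    have hL : (0 : ℝ) < L n := by exact_mod_cast L_pos n
    have h2 : (U n : ℝ) ≤ (Upr n : ℝ) + (NP n : ℝ) := by exact_mod_cast U_le_add n
    have h3 : (L n : ℝ) ≤ (n.factorial : ℝ) * (U n : ℝ) := by exact_mod_cast L_le_mul n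
    have h4 : (0 : ℝ) ≤ NP n := by positivity
    change 1 - (NP n : ℝ) * (n.factorial : ℝ) / (L n : ℝ) ≤ (Upr n : ℝ) / (U n : ℝ)
    have h5 : (NP n : ℝ) / (U n : ℝ) ≤ (NP n : ℝ) * (n.factorial : ℝ) / (L n : ℝ) := by
      rw [div_le_div_iff₀ (hU n) hL]
      calc (NP n : ℝ) * (L n : ℝ) ≤ (NP n : ℝ) * ((n.factorial : ℝ) * (U n : ℝ)) :=
            mul_le_mul_of_nonneg_left h3 h4
        _ = (NP n : ℝ) * (n.factorial : ℝ) * (U n : ℝ) := by ring
    have h6 : 1 ≤ (Upr n : ℝ) / (U n : ℝ) + (NP n : ℝ) / (U n : ℝ) := by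
      rw [← add_div, le_div_iff₀ (hU n), one_mul]
      exact h2
    linarith
  · intro n
    change (Upr n : ℝ) / (U n : ℝ) ≤ 1
    rw [div_le_one (hU n)]
    exact_mod_cast Upr_le n

end Pool.Agent.Results.MP_0c861e_co.UnlabeledRatio
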